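import Pool.Agent.Helper21.AX.Main

/-!
MP_4a5e7e_lc: bounded truth-table autoreducibility of NEXP-complete sets, a positive answer in a
relativised world.

There is an oracle `O` such that for every `k` every set that is complete for `NEXP` relative to `O`
under `k`-truth-table reductions is `k`-truth-table autoreducible relative to `O`.

Construction.  Let `(a, c; g, r, k)` run through all the pairs of a nondeterministic machine `a` (time
`2 ^ (n ^ c + c)`) and a reduction `g` of the test set of the oracle to the set of `a`.  For each string
`y` the oracle hides links from long instances `z` to accepting runs of `a` on `y`; the instances are
chosen (hitting sets, by recursion on the length) so that, whatever the rest of the oracle may be, the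
reduction does not ask `y` on one of the instances of `y`, unless `y` is asked on half of all the
instances of each of many levels (special strings, at most `2 k` in a long interval of levels).
For a special `y` a short instance `h`, of length less than `n ^ (1 / r)`, codes whether `a` accepts `y`;
these codes are correct because the levels fall into blocks, separated by cuts across which nothing
special happens, and in each block one switches on codes one after the other, each hidden from the
accepting runs found before.  A polynomial time program finds the instance of `y` through a walk whose
answers are strings of the oracle longer than everything that the reduction sees.
-/

namespace Pool.Agent.Results.MP_4a5e7e_lc.AutoreducibleWorld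

open Pool.Agent.Helper5.SX Pool.Agent.Helper21.AX

theorem result : ∃ O : Set Str, ∀ (k : ℕ) (A : Set Str), CompleteKtt O k A → AutoKtt O k A :=
  main

end Pool.Agent.Results.MP_4a5e7e_lc.AutoreducibleWorld
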