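import Pool.Agent.Helper5.AQ.Main

/-!
MP_4a5e7e_lc: bounded truth-table autoreducibility of NEXP-complete sets, a negative answer in a
relativised world for every single table that is not good.

There are an oracle `O` and one set `A ∈ NE^O` such that for each `k` and each table `w` with `k`
places that is not good (for instance the majority of three) every set of `NEXP^O` has a polynomial
time reduction to `A` with `k` queries that always uses the table `w`; but `A` is neither
autoreducible nor mitotic, even for polynomial time truth-table reductions with polynomially many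
queries.

Idea.  Two code strings and one special string for each stage code the question whether a program
accepts an input: the pair of bits of the code strings is `(0,0)`, `(0,1)` or `(1,1)` and the
answer is `0`, the bit of the special string, or `1`.  The special string of a stage is used by all
the longer code strings up to the next stage.  For a given reduction there are two oracles in which
this bit is `0` and `1` and which give the same answers to all the queries.
-/

namespace Pool.Agent.Results.MP_4a5e7e_lc.BadTables

open Pool.Agent.Helper5.SX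

open Classical in
/-- The value of the truth table `w` (a string of bits, read as `0` beyond its end) at the answers
`a 0, …, a (k - 1)`: the bit of `w` whose number has the answers as binary digits. -/
noncomputable def tab (k : ℕ) (w : Str) (a : ℕ → Prop) : Bool :=
  w.getD (∑ j ∈ Finset.range k, if a j then 2 ^ j else 0) false

/-- The answers `a`, with `b` at the places `J`. -/
def sub (J : ℕ → Prop) (b : Prop) (a : ℕ → Prop) : ℕ → Prop := fun j => (J j ∧ b) ∨ (¬ J j ∧ a j)

/-- The table has, at the places `J`, a restriction with the values `u`, `v` at `0`, `1`. -/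
def Has (k : ℕ) (w : Str) (J : ℕ → Prop) (u v : Bool) : Prop :=
  ∃ a : ℕ → Prop, tab k w (sub J False a) = u ∧ tab k w (sub J True a) = v

/-- Good tables: for no set `J` of places, the answers at the places `J` being equal to one bit and
the other answers being fixed, the table is constantly `0` for some answers at the other places,
equal to the bit for some, and constantly `1` for some. -/
def Good (k : ℕ) (w : Str) : Prop :=
  ∀ J : ℕ → Prop, ¬ (Has k w J false false ∧ Has k w J false true ∧ Has k w J true true)

/-- `B` is reducible to `A` in polynomial time relative to `O` with `k` queries and with truth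
tables in `Γ`: a deterministic program with the oracle `O` writes a truth table on stack `0` and
`k` queries on the stacks `1, …, k` within `n ^ r + r` steps, and the table applied to the answers
of `A` decides `B`. -/
def KttR (O : Set Str) (k : ℕ) (Γ : Set Str) (B A : Set Str) : Prop :=
  ∃ g : Cmd, g.Det ∧ ∃ r : ℕ, ∀ x : Str, ∃ t ≤ x.length ^ r + r, ∃ s' : Store,
    Run O g (start x []) t s' ∧ s' 0 ∈ Γ ∧
      (x ∈ B ↔ tab k (s' 0) (fun j => s' (j + 1) ∈ A) = true)

/-- The code of a list of strings. -/
def lenc : List Str → Str
  | [] => []
  | w :: l => w.flatMap (fun b => [true, b]) ++ false :: lenc l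

/-- The list of queries `q x` can be computed in polynomial time with the oracle `O`: some
deterministic program halts on `x` within `n^k+k` steps with the code of `q x` on stack 2. -/
def PolyList (O : Set Str) (q : Str → List Str) : Prop :=
  ∃ c : Cmd, c.Det ∧ ∃ k : ℕ, ∀ x : Str, ∃ t ≤ x.length ^ k + k, ∃ s' : Store,
    Run O c (start x []) t s' ∧ s' 2 = lenc (q x)

open Classical in
/-- The list of the answers. -/
noncomputable def ans (A : Set Str) (l : List Str) : Str := l.map (fun y => decide (y ∈ A))

/-- Truth-table reduction of `C` to `A` with the queries `q x`: the queries can be computed in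
polynomial time, and a deterministic program decides `C` in time `n^k+k` from `x` (stack 0) and
the answers (stack 1). All programs may use the oracle `O`. -/
def TT (O : Set Str) (q : Str → List Str) (C A : Set Str) : Prop :=
  PolyList O q ∧ ∃ c : Cmd, c.Det ∧ ∃ k : ℕ, ∀ x : Str, ∃ t ≤ x.length ^ k + k, ∃ s' : Store,
    Run O c (start x (ans A (q x))) t s' ∧ (s' 2 ≠ [] ↔ x ∈ C)

/-- The class `P^O`. -/
def PP (O : Set Str) : Set (Set Str) :=
  {S | ∃ c : Cmd, c.Det ∧ ∃ k : ℕ, ∀ x : Str, ∃ t ≤ x.length ^ k + k, ∃ s' : Store,
    Run O c (start x []) t s' ∧ (s' 2 ≠ [] ↔ x ∈ S)}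

theorem lenc_eq (l : List Str) : Pool.Agent.Helper5.AN.lenc l = lenc l := by
  induction l with
  | nil => rfl
  | cons w l ih =>
    show w.flatMap (fun b => [true, b]) ++ false :: Pool.Agent.Helper5.AN.lenc l =
      w.flatMap (fun b => [true, b]) ++ false :: lenc l
    rw [ih]

theorem polyList_iff (O : Set Str) (q : Str → List Str) :
    Pool.Agent.Helper5.AN.PolyList O q ↔ PolyList O q := by
  simp only [Pool.Agent.Helper5.AN.PolyList, PolyList, lenc_eq]

theorem tt_iff (O : Set Str) (q : Str → List Str) (C A : Set Str) :
    Pool.Agent.Helper5.AN.TT O q C A ↔ TT O q C A := and_congr (polyList_iff O q) Iff.rfl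

theorem result : ∃ O A : Set Str, A ∈ NE O ∧
    (∀ (k : ℕ) (w : Str), ¬ Good k w → ∀ C ∈ NEXP O, KttR O k {w} C A) ∧
    (¬ ∃ q : Str → List Str, (∀ x, x ∉ q x) ∧ TT O q A A) ∧
    ¬ ∃ S ∈ PP O, (∃ q, TT O q (A ∩ S) (A \ S)) ∧ ∃ q, TT O q (A \ S) (A ∩ S) := by
  obtain ⟨O, A, h1, h2, h3, h4⟩ := Pool.Agent.Helper5.AQ.main
  refine ⟨O, A, h1, fun k w hw C hC => h2 k w hw C hC, ?_, ?_⟩
  · rintro ⟨q, h5, h6⟩
    exact h3 ⟨q, h5, (tt_iff O q A A).2 h6⟩
  · rintro ⟨S, hS, ⟨q, h5⟩, q', h6⟩
    exact h4 ⟨S, hS, ⟨q, (tt_iff O q _ _).2 h5⟩, q', (tt_iff O q' _ _).2 h6⟩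

end Pool.Agent.Results.MP_4a5e7e_lc.BadTables
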