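import Pool.Agent.Helper5.AP.Main

/-!
MP_4a5e7e_lc: bounded truth-table autoreducibility of NEXP-complete sets, a positive answer for
reductions with good tables.

A truth table with `k` places is good if for no set `J` of places all three functions `0`, identity
and `1` of one bit arise from it by putting this bit at the places `J` and fixed bits at the other
places.  For every oracle `O` (the empty one included) and every `k`: if `A ∈ NEXP^O` and every set
of `NEXP^O` has a polynomial time reduction to `A` with `k` queries all of whose tables are good,
then `A` is `k`-truth-table autoreducible.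

Idea.  The set `C ∈ NEXP` simulates a program `c` on strings `(c, x)`: it finds the queries of `c`
on this string, the set `J` of places where `x` itself is asked, and the table `w`.  As `w` is good
there is a pair (value at `0`, value at `1`) that is not a restriction of `w` to the places `J`
among `0`, `x ∈ A`, `1`: the set `C` behaves in the way that is excluded.  For the reduction `c` of
`C` to `A` the answers at the places outside `J` then determine whether `x ∈ A`.
-/

namespace Pool.Agent.Results.MP_4a5e7e_lc.GoodTables

open Pool.Agent.Helper5.SX

open Classical in
/-- The value of the truth table `w` (a string of bits, read as `0` beyond its end) at the answers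
`a 0, …, a (k - 1)`: the bit of `w` whose number has the answers as binary digits. -/
noncomputable def tab (k : ℕ) (w : Str) (a : ℕ → Prop) : Bool :=
  w.getD (∑ j ∈ Finset.range k, if a j then 2 ^ j else 0) false

/-- The answers `a`, with `b` at the places `J`. -/
def sub (J : ℕ → Prop) (b : Prop) (a : ℕ → Prop) : ℕ → Prop := fun j => (J j ∧ b) ∨ (¬ J j ∧ a j)

/-- The table has, at the places `J`, a restriction with the values `u`, `v` at `0`, `1`. -/
def Has (k : ℕ) (w : Str) (J : ℕ → Prop) (u v : Bool) : Prop :=
  ∃ a : ℕ → Prop, tab k w (sub J False a) = u ∧ tab k w (sub J True a) = v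

/-- Good tables: for no set `J` of places, the answers at the places `J` being equal to one bit and
the other answers being fixed, the table is constantly `0` for some answers at the other places,
equal to the bit for some, and constantly `1` for some. -/
def Good (k : ℕ) (w : Str) : Prop :=
  ∀ J : ℕ → Prop, ¬ (Has k w J false false ∧ Has k w J false true ∧ Has k w J true true)

/-- `B` is reducible to `A` in polynomial time relative to `O` with `k` queries and with truth
tables in `Γ`: a deterministic program with the oracle `O` writes a truth table on stack `0` and
`k` queries on the stacks `1, …, k` within `n ^ r + r` steps, and the table applied to the answers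
of `A` decides `B`. -/
def KttR (O : Set Str) (k : ℕ) (Γ : Set Str) (B A : Set Str) : Prop :=
  ∃ g : Cmd, g.Det ∧ ∃ r : ℕ, ∀ x : Str, ∃ t ≤ x.length ^ r + r, ∃ s' : Store,
    Run O g (start x []) t s' ∧ s' 0 ∈ Γ ∧
      (x ∈ B ↔ tab k (s' 0) (fun j => s' (j + 1) ∈ A) = true)

/-- `A` is `k`-truth-table autoreducible: reducible to itself by a reduction with `k` queries that
never asks its own input. -/
def AutoKtt (O : Set Str) (k : ℕ) (A : Set Str) : Prop :=
  ∃ g : Cmd, g.Det ∧ ∃ r : ℕ, ∀ x : Str, ∃ t ≤ x.length ^ r + r, ∃ s' : Store,
    Run O g (start x []) t s' ∧ (∀ j < k, s' (j + 1) ≠ x) ∧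
      (x ∈ A ↔ tab k (s' 0) (fun j => s' (j + 1) ∈ A) = true)

theorem result (O : Set Str) (k : ℕ) (A : Set Str) (hA : A ∈ NEXP O)
    (h : ∀ B ∈ NEXP O, KttR O k {w | Good k w} B A) : AutoKtt O k A :=
  Pool.Agent.Helper5.AP.main O k A hA h

end Pool.Agent.Results.MP_4a5e7e_lc.GoodTables
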