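import Mathlib
import Pool.Agent.Helper21.BX.NonMitoticMain

/-!
MP_4a5e7e_lc, Q2: for every `k ≥ 3` there is a set that is complete for NEXP under `k`-truth-table
reductions and that is not mitotic.  No oracle, no unproved hypothesis.

Sketch for `k ≥ 4`.  `K` is a complete set.  The set `A` holds, for each instance `c` of `K`, the shares
`s_0(c), …, s_(k-2)(c)`, and a mask for each level.  The levels are cut into long blocks
`[a, τ]`, `a < n = 2 ^ a < τ = 2 ^ (a ^ 2)`.  For the levels in the attack interval `[n, τ]` there is one
plan `(b, L)`, where `b` is a bit (the value of the mask) and `L` is a finite set of shares that are put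
into `A`.  If `b = 0` then `K(c)` is the conjunction of all the shares, if `b = 1` it is the conjunction
of all the shares but the last one, which is then free.  So `K(c)` is found with `k` queries: the mask
and the `k - 1` shares.  A program that, on a string `y`, only asks strings on the other side than `y`
cannot ask the mask if `y` is on the side of the mask.  One finds in exponential time a plan such that
the program fails for certain on one of at most four strings, whatever the values of `K` are
(`Pool.Agent.Helper5.BG.exists_plan`; a pigeonhole argument).  The only other danger is a string of low
level that tells the bit `b`.  The levels in `[a, n)` are service levels: there `A` has a further bit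
for each level, which is `1` if there is a plan that works when the key, a string of that level, is in
`A` and all the other strings of low level are arbitrary; this bit puts the key into `A`.  If there is no
such plan, the strings of the service levels that could tell `b` are not in `A`.  Levels below `a` are
treated by brute force.

Sketch for `k = 3`.  Here `A` has three kinds of strings: a selector for each level, two shares
`s_0(c), s_1(c)` for each instance `c` of `K`, and free strings.  If the selector is `b` then `K(c)` is the
value of the share `s_b(c)`, and the other share is free.  A plan for the attack interval is the bit `b` and a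
value for finitely many free strings and free shares; such a value may be `0`, `1`, some `K(c)`, a special bit
`p`, or a combination of three of them.  Two programs `M_0`, `M_1` are treated at a time, one for each of two
sets `A_0`, `A_1`.  For each program there is a plan that works whatever the values of `K` are, as above, or
there are plans of both of the following kinds: a plan that works if `p = K(r)`, and a plan that works if
`p ≠ K(r_1) ∧ K(r_2)` (`Pool.Agent.Helper5.BH.exists_plan`).  In the second case `A_0` is built with a plan
of the first kind for `M_0` and `p = K(r_1) ∧ K(r_2)`, and `A_1` is built with a plan of the second kind for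
`M_1` and `p = K(r)`, where `r` belongs to the plan for `M_0` and `r_1, r_2` to the plan for `M_1`.  If
`K(r) = K(r_1) ∧ K(r_2)` then `M_0` fails for `A_0`, and if not then `M_1` fails for `A_1`
(`Pool.Agent.Helper21.BY.two_sets`).  So at least one of `A_0`, `A_1` is not mitotic.  The scales of the
plans are chosen such that both sets are in NEXP (for `A_1` with an exponent that depends on `M_0`).
-/

open Turing

namespace Pool.Agent.Results.MP_4a5e7e_lc.NonMitotic

/-- Languages: sets of strings over `{0, 1}`. -/
abbrev Lang : Type := Set (List Bool)

/-- The code of a pair of strings: the symbols of the first string, each preceded by `1`, then `0`,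
then the second string. -/
def pairCode (u v : List Bool) : List Bool := u.flatMap (fun a => [true, a]) ++ false :: v

/-- The code of a list of strings. -/
def listCode (l : List (List Bool)) : List Bool := l.foldr pairCode []

/-- `S` is in P: a machine decides it in polynomial time. (Mathlib's `TM2ComputableInPolyTime`:
machines with finitely many stacks.) -/
def InP (S : Lang) : Prop :=
  ∃ f : List Bool → Bool, Nonempty (TM2ComputableInPolyTime (fun x : List Bool => x)
    (fun b : Bool => [b]) f) ∧ ∀ x, x ∈ S ↔ f x = true

/-- A test for pairs of strings can be decided in polynomial time. -/
def PolyTest (V : List Bool × List Bool → Bool) : Prop :=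
  Nonempty (TM2ComputableInPolyTime (fun p : List Bool × List Bool => pairCode p.1 p.2)
    (fun b : Bool => [b]) V)

/-- `A` is in NEXP: there are a test `V` that is decided in polynomial time and an exponent `r`
such that `x ∈ A` if and only if `V (x, g)` holds for some `g` of the length
`2 ^ (|x| ^ r + r)`. -/
def InNEXP (A : Lang) : Prop :=
  ∃ (V : List Bool × List Bool → Bool) (r : ℕ), PolyTest V ∧
    ∀ x, x ∈ A ↔ ∃ g : List Bool, g.length = 2 ^ (x.length ^ r + r) ∧ V (x, g) = true

open Classical in
/-- The reducibility `≤` with at most `k` nonadaptive queries, in polynomial time: `q x` is the
list of the queries on the input `x`, and `D` decides, given `x` and the list of the answers. -/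
def Ktt (k : ℕ) (A B : Lang) : Prop :=
  ∃ (q : List Bool → List (List Bool)) (D : List Bool × List Bool → Bool),
    Nonempty (TM2ComputableInPolyTime (fun x : List Bool => x) listCode q) ∧ PolyTest D ∧
    ∀ x, (q x).length ≤ k ∧ (x ∈ A ↔ D (x, (q x).map fun y => decide (y ∈ B)) = true)

/-- `A` is complete for NEXP under this reducibility. -/
def CompleteKtt (k : ℕ) (A : Lang) : Prop := InNEXP A ∧ ∀ C, InNEXP C → Ktt k C A

/-- `A` is mitotic: for some `S` in P the sets `A`, `A ∩ S` and `A \ S` are pairwise equivalent. -/
def MitoticKtt (k : ℕ) (A : Lang) : Prop :=
  ∃ S, InP S ∧ Ktt k A (A ∩ S) ∧ Ktt k (A ∩ S) A ∧ Ktt k A (A \ S) ∧ Ktt k (A \ S) A ∧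
    Ktt k (A ∩ S) (A \ S) ∧ Ktt k (A \ S) (A ∩ S)

/-- For every `k ≥ 3` some set that is `k`-tt-complete for NEXP is not `k`-tt-mitotic. -/
theorem result (k : ℕ) (hk : 3 ≤ k) :
    ∃ A : Lang, CompleteKtt k A ∧ ¬ MitoticKtt k A ∧
      ∀ S : Lang, InP S → ¬ (Ktt k A (A ∩ S) ∧ Ktt k A (A \ S)) :=
  Pool.Agent.Helper21.BX.NonMitoticMain.nonMitotic k hk

end Pool.Agent.Results.MP_4a5e7e_lc.NonMitotic
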